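import Mathlib
import Pool.Agent.GAvd.Kolm2
import Pool.Agent.GAvd.Freq

/-!
`Delta0 = E2Star` holds if and only if every function of class `E2` with finitely many values is
avoided by a function with bounded-formula graph, if and only if no `E2Star` set is superterse for
bounded formulas, if and only if `E2Star` sets of density close to one contain `Delta0` sets of
positive density. All this is also shown for formulas with a parameter of polynomial size which
do slightly better than a random function; how much better may depend on the given function or set.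
-/

set_option autoImplicit false

namespace Pool.Agent.Results.MP_a56640_lc.Avoidance

open Pool.Agent.Grz Filter Finset
open scoped Classical

theorem star_incompressible {g : ℕ → ℕ} (hg : E2 1 (fun v => g (v 0))) (κ : ℕ) :
    E2Star 1 (fun v => ∀ p, 2 ^ κ * p ≤ v 0 → g p ≠ v 0) := by
  have h1 : E2Star 1 (fun v => ∃ p, p ≤ v 0 ∧ (2 ^ κ * p ≤ v 0 ∧ g p = v 0)) := by
    refine E2Star.bex (n := 1) (b := fun v => v 0)
      (P := fun p v => 2 ^ κ * p ≤ v 0 ∧ g p = v 0) (E2.proj 0) ?_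
    exact (E2Star.leFun ((E2.const (2 ^ κ)).mul (E2.proj 0)) (E2.proj _)).and
      (E2Star.eqFun (E2.comp1 (g := g) hg (E2.proj 0)) (E2.proj _))
  refine h1.not.of_iff ?_
  intro v
  constructor
  · rintro h ⟨p, _, h2, h3⟩
    exact h p h2 h3
  · intro h p h2 h3
    refine h ⟨p, ?_, h2, h3⟩
    exact le_trans (Nat.le_mul_of_pos_left _ (by positivity)) h2

theorem count_incompressible (g : ℕ → ℕ) (κ N : ℕ) :
    (N : ℝ) - (N / 2 ^ κ + 1) ≤
      (#{x ∈ range N | ∀ p, 2 ^ κ * p ≤ x → g p ≠ x} : ℝ) := by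
  have h1 := Finset.card_filter_add_card_filter_not (s := range N)
    (fun x => ∀ p, 2 ^ κ * p ≤ x → g p ≠ x)
  rw [card_range] at h1
  have h2 : #{x ∈ range N | ¬ ∀ p, 2 ^ κ * p ≤ x → g p ≠ x} ≤ N / 2 ^ κ + 1 := by
    calc #{x ∈ range N | ¬ ∀ p, 2 ^ κ * p ≤ x → g p ≠ x}
        ≤ #((range (N / 2 ^ κ + 1)).image g) := by
          refine Finset.card_le_card ?_
          intro x hx
          rw [mem_filter, mem_range] at hx
          obtain ⟨hxN, hx⟩ := hx
          push Not at hx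
          obtain ⟨p, hp, hgp⟩ := hx
          rw [mem_image]
          refine ⟨p, ?_, hgp⟩
          rw [mem_range, Nat.lt_succ_iff, Nat.le_div_iff_mul_le (by positivity)]
          rw [mul_comm]
          omega
      _ ≤ #(range (N / 2 ^ κ + 1)) := Finset.card_image_le
      _ = N / 2 ^ κ + 1 := card_range _
  have h3 : ((N / 2 ^ κ : ℕ) : ℝ) ≤ (N : ℝ) / 2 ^ κ := by
    have := Nat.cast_div_le (α := ℝ) (m := N) (n := 2 ^ κ)
    push_cast at this
    exact this
  have h4 : ((#{x ∈ range N | ∀ p, 2 ^ κ * p ≤ x → g p ≠ x} : ℕ) : ℝ) +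
      (#{x ∈ range N | ¬ ∀ p, 2 ^ κ * p ≤ x → g p ≠ x} : ℕ) = N := by exact_mod_cast h1
  have h5 : ((#{x ∈ range N | ¬ ∀ p, 2 ^ κ * p ≤ x → g p ≠ x} : ℕ) : ℝ) ≤
      ((N / 2 ^ κ : ℕ) : ℝ) + 1 := by exact_mod_cast h2
  linarith

/-- Let `m ≥ 2` and `κ ≥ 1`. The following are equivalent.

1. `Delta0 = E2Star`.
2. For every `f` in `E2` with values `< m` there is a function `h` with bounded-formula graph and
   values `< m` such that `h x ≠ f x` for all `x`.
3. For every `f` in `E2` with values `< m` there are `γ > 0`, `c` and a function `h (a, x) < m` with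
   bounded-formula graph such that for all large `N` there is `a ≤ (N + 2) ^ c` with `h a x ≠ f x`
   for at least `(1 - 1/m + γ) N` of the numbers `x < N`.
4. For every unary `R` in `E2Star` there are `n ≥ 1` and bounded formulas `ψ_1, …, ψ_n` such that
   `(ψ_1 (x), …, ψ_n (x)) ≠ (R x_1, …, R x_n)` for all `x` in `ℕ ^ n`.
5. For every unary `R` in `E2Star` there are `n ≥ 1`, `γ > 0`, `c` and bounded formulas
   `ψ_i (a, x_1, …, x_n)` such that for all large `N` there is `a ≤ (N + 2) ^ c` with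
   `(ψ_1 (a, x), …, ψ_n (a, x)) ≠ (R x_1, …, R x_n)` for at least `(1 - 2 ^ (-n) + γ) N ^ n` of the
   `x` in `[0, N) ^ n`.
6. Every set in `E2Star` of lower density at least `1 - 2 ^ (-κ)` contains a `Delta0` set of
   positive lower density.
7. For every unary `g` in `E2` there are `δ > 0`, a bounded formula `ψ` and `c` such that for all
   large `N` there is `a ≤ (N + 2) ^ c` for which `{x < N : ψ (a, x)}` has at least `δ N` elements,
   none of them of the form `g p` with `p ≤ x / 2 ^ κ`. -/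
theorem result (m : ℕ) (hm : 2 ≤ m) (κ : ℕ) (hκ : 1 ≤ κ) :
    List.TFAE [
      ∀ (k : ℕ) (R : (Fin k → ℕ) → Prop), Delta0 k R ↔ E2Star k R,
      ∀ f : ℕ → ℕ, E2 1 (fun v => f (v 0)) → (∀ x, f x < m) →
        ∃ h : ℕ → ℕ, Delta0 2 (fun v => h (v 0) = v 1) ∧ ∀ x, h x < m ∧ h x ≠ f x,
      ∀ f : ℕ → ℕ, E2 1 (fun v => f (v 0)) → (∀ x, f x < m) →
        ∃ γ : ℝ, 0 < γ ∧ ∃ (c : ℕ) (h : ℕ → ℕ → ℕ), Delta0 3 (fun v => h (v 0) (v 1) = v 2) ∧
          (∀ a x, h a x < m) ∧ ∀ᶠ N : ℕ in atTop, ∃ a : ℕ, a ≤ (N + 2) ^ c ∧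
            (1 - 1 / (m : ℝ) + γ) * (N : ℝ) ≤ (#{x ∈ range N | h a x ≠ f x} : ℝ),
      ∀ R : ℕ → Prop, E2Star 1 (fun v => R (v 0)) →
        ∃ n : ℕ, 1 ≤ n ∧ ∃ ψ : Fin n → (Fin n → ℕ) → Prop, (∀ i, Delta0 n (ψ i)) ∧
          ∀ x : Fin n → ℕ, ∃ i, ¬ (ψ i x ↔ R (x i)),
      ∀ R : ℕ → Prop, E2Star 1 (fun v => R (v 0)) →
        ∃ n : ℕ, 1 ≤ n ∧ ∃ γ : ℝ, 0 < γ ∧ ∃ (c : ℕ) (ψ : Fin n → (Fin (n + 1) → ℕ) → Prop),
          (∀ i, Delta0 (n + 1) (ψ i)) ∧ ∀ᶠ N : ℕ in atTop, ∃ a : ℕ, a ≤ (N + 2) ^ c ∧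
            (1 - 1 / 2 ^ n + γ) * (N : ℝ) ^ n ≤
              (#{x : Fin n → Fin N |
                ∃ i, ¬ (ψ i (Fin.cons a fun j => (x j : ℕ)) ↔ R (x i))} : ℝ),
      ∀ S : ℕ → Prop, E2Star 1 (fun v => S (v 0)) →
        (∀ η : ℝ, 0 < η → ∀ᶠ N : ℕ in atTop,
          (1 - 1 / 2 ^ κ - η) * (N : ℝ) ≤ (#{x ∈ range N | S x} : ℝ)) →
        ∃ T : ℕ → Prop, Delta0 1 (fun v => T (v 0)) ∧ (∀ x, T x → S x) ∧
          ∃ δ : ℝ, 0 < δ ∧ ∀ᶠ N : ℕ in atTop, δ * (N : ℝ) ≤ (#{x ∈ range N | T x} : ℝ),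
      ∀ g : ℕ → ℕ, E2 1 (fun v => g (v 0)) →
        ∃ δ : ℝ, 0 < δ ∧ ∃ (c : ℕ) (ψ : (Fin 2 → ℕ) → Prop), Delta0 2 ψ ∧
          ∀ᶠ N : ℕ in atTop, ∃ a : ℕ, a ≤ (N + 2) ^ c ∧
            (∀ x, x < N → ψ ![a, x] → ∀ p, 2 ^ κ * p ≤ x → g p ≠ x) ∧
            δ * (N : ℝ) ≤ (#{x ∈ range N | ψ ![a, x]} : ℝ)] := by
  tfae_have 1 → 2 := by
    intro H f hf hfm
    refine ⟨fun x => (f x + 1) % m, (H 2 _).mpr ?_, fun x => ⟨Nat.mod_lt _ (by omega), ?_⟩⟩
    · exact E2Star.eqFun (((E2.comp1 (g := f) hf (E2.proj 0)).add (E2.const 1)).mod (E2.const m))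
        (E2.proj 1)
    · intro h
      change (f x + 1) % m = f x at h
      have h1 := hfm x
      rcases Nat.lt_or_ge (f x + 1) m with h2 | h2
      · rw [Nat.mod_eq_of_lt h2] at h; omega
      · have h3 : f x + 1 = m := by omega
        rw [h3, Nat.mod_self] at h; omega
  tfae_have 2 → 3 := by
    intro H f hf hfm
    obtain ⟨h, hh, hne⟩ := H f hf hfm
    have hm0 : (0 : ℝ) < m := by exact_mod_cast (by omega : 0 < m)
    refine ⟨1 / m, by positivity, 0, fun _ x => h x, ?_, fun _ x => (hne x).1, ?_⟩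
    · exact Delta0.comp2 (P := fun x y => h x = y) hh (DFun.proj 1) (DFun.proj 2)
    · filter_upwards with N
      refine ⟨0, Nat.zero_le _, ?_⟩
      have : ({x ∈ range N | h x ≠ f x} : Finset ℕ) = range N := by
        ext x; simp [(hne x).2]
      rw [this, card_range]
      have hN : (0 : ℝ) ≤ N := Nat.cast_nonneg N
      linarith
  tfae_have 3 → 1 := by
    intro H
    refine GAvd.avoid2 hm fun f hf hfm => ?_
    obtain ⟨γ, hγ, c, h, hh, hhm, hev⟩ := H f hf hfm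
    refine ⟨γ, hγ, c, h, ?_, hhm, hev⟩
    refine DFun.ofGraph (DFun.const m) (fun v => (hhm _ _).le) ?_
    exact (Delta0.comp3 (P := fun a x y => h a x = y) hh (DFun.proj 1) (DFun.proj 2)
      (DFun.proj 0)).of_iff (fun w => eq_comm)
  tfae_have 1 → 4 := by
    intro H R hR
    refine ⟨1, le_rfl, fun _ v => ¬ R (v 0), fun _ => ((H 1 _).mpr hR).not, fun x => ⟨0, ?_⟩⟩
    simp
  tfae_have 4 → 5 := by
    intro H R hR
    obtain ⟨n, hn, ψ, hψ, hne⟩ := H R hR
    refine ⟨n, hn, 1 / 2 ^ n, by positivity, 0, fun i v => ψ i (fun j => v j.succ),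
      fun i => (hψ i).rename Fin.succ, ?_⟩
    filter_upwards with N
    refine ⟨0, Nat.zero_le _, ?_⟩
    have : (univ.filter fun x : Fin n → Fin N => ∃ i, ¬ (ψ i (fun j =>
        (Fin.cons 0 (fun j => (x j : ℕ)) : Fin (n + 1) → ℕ) j.succ) ↔ R (x i))) = univ := by
      refine Finset.filter_true_of_mem fun x _ => ?_
      obtain ⟨i, hi⟩ := hne (fun j => (x j : ℕ))
      refine ⟨i, ?_⟩
      simpa using hi
    rw [this, Finset.card_univ, Fintype.card_fun, Fintype.card_fin, Fintype.card_fin]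
    push_cast
    linarith
  tfae_have 5 → 1 := GAvd.freq2
  tfae_have 1 → 6 := by
    intro H S hS hdens
    have h2 : (1 : ℝ) / 2 ^ κ < 1 := by
      rw [div_lt_one (by positivity)]
      exact one_lt_pow₀ (by norm_num) (by omega)
    refine ⟨S, (H 1 _).mpr hS, fun x h => h, (1 - 1 / 2 ^ κ) / 2, by linarith, ?_⟩
    filter_upwards [hdens ((1 - 1 / 2 ^ κ) / 2) (by linarith)] with N hN
    refine le_trans (le_of_eq ?_) hN
    ring
  tfae_have 6 → 7 := by
    intro H g hg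
    obtain ⟨T, hT, hTS, δ, hδ, hTd⟩ := H (fun x => ∀ p, 2 ^ κ * p ≤ x → g p ≠ x)
      (star_incompressible hg κ) (by
        intro η hη
        obtain ⟨M, hM⟩ := exists_nat_ge (1 / η)
        filter_upwards [eventually_ge_atTop M] with N hN
        have h1 := count_incompressible g κ N
        have h2 : 1 ≤ η * (N : ℝ) := by
          have h3 : 1 / η ≤ (N : ℝ) := hM.trans (by exact_mod_cast hN)
          rw [div_le_iff₀ hη] at h3
          linarith
        have h4 : (1 - 1 / 2 ^ κ - η) * (N : ℝ) = N - (N / 2 ^ κ + η * N) := by ring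
        rw [h4]
        linarith)
    refine ⟨δ, hδ, 0, fun v => T (v 1), ?_, ?_⟩
    · exact Delta0.comp1 (P := T) hT (DFun.proj 1)
    · filter_upwards [hTd] with N hN
      refine ⟨0, Nat.zero_le _, fun x _ hx => ?_, ?_⟩
      · exact hTS x (by simpa using hx)
      · simpa using hN
  tfae_have 7 → 1 := GAvd.kolm2 hκ
  tfae_finish

end Pool.Agent.Results.MP_a56640_lc.Avoidance
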