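import Mathlib
import Pool.Agent.CBM.Upper
import Pool.Agent.CBM.SB
import Pool.Agent.CBM.LowerB
import Pool.Agent.CBM.LowerM

/-!
`Delta0 = E2Star` holds if and only if the theorems of Cantor-Schroeder-Bernstein, Banach and Myhill
hold for bounded formulas.
-/

set_option autoImplicit false

namespace Pool.Agent.Results.MP_a56640_lc.Myhill

open Pool.Agent.Grz Pool.Agent.CBM

/-- **Main theorem.** `DInj f`: `f` is an injection with a bounded-formula graph and of polynomial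
growth. The following are equivalent.

(1) `Delta0 = E2Star`.

(2) Myhill's theorem: for all `DInj f`, `DInj g` there is a bijection `h`, with bounded-formula
graph, `h` and its inverse of polynomial growth, such that `h` is an isomorphism between any two sets
`A`, `B` that are reduced to each other by `f` and `g`.

(3) The same for increasing `f`, `g` only, and `h` may depend on `A` and `B`.

(4) The Cantor-Schroeder-Bernstein theorem: for all `DInj f`, `DInj g` with `x ≤ f x`, `x ≤ g x`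
there is such a bijection `h` with `h x = f x` or `g (h x) = x` for every `x`.

(5) Banach's theorem for increasing `f`, `g`: there is a bounded-formula set `C` with
`C = ℕ \ g (ℕ \ f C)`. -/
theorem result : List.TFAE [
    ∀ (k : ℕ) (R : (Fin k → ℕ) → Prop), Delta0 k R ↔ E2Star k R,
    ∀ f g : ℕ → ℕ, DInj f → DInj g →
      ∃ h : ℕ ≃ ℕ, DFun 1 (fun v => h (v 0)) ∧ DFun 1 (fun v => h.symm (v 0)) ∧
        ∀ A B : Set ℕ, (∀ x, x ∈ A ↔ f x ∈ B) → (∀ x, x ∈ B ↔ g x ∈ A) →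
          ∀ x, x ∈ A ↔ h x ∈ B,
    ∀ f g : ℕ → ℕ, DInj f → DInj g → (∀ x, x < f x) → (∀ x, x < g x) →
      ∀ A B : Set ℕ, (∀ x, x ∈ A ↔ f x ∈ B) → (∀ x, x ∈ B ↔ g x ∈ A) →
        ∃ h : ℕ ≃ ℕ, DFun 1 (fun v => h (v 0)) ∧ DFun 1 (fun v => h.symm (v 0)) ∧
          ∀ x, x ∈ A ↔ h x ∈ B,
    ∀ f g : ℕ → ℕ, DInj f → DInj g → (∀ x, x ≤ f x) → (∀ x, x ≤ g x) →
      ∃ h : ℕ ≃ ℕ, DFun 1 (fun v => h (v 0)) ∧ DFun 1 (fun v => h.symm (v 0)) ∧
        ∀ x, h x = f x ∨ g (h x) = x,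
    ∀ f g : ℕ → ℕ, DInj f → DInj g → (∀ x, x < f x) → (∀ x, x < g x) →
      ∃ C : Set ℕ, Delta0 1 (fun v => v 0 ∈ C) ∧ C = (g '' (f '' C)ᶜ)ᶜ] := by
  tfae_have 1 → 2 := fun H f g hf hg => myhill_of_eq (fun k R h => (H k R).mpr h) hf hg
  tfae_have 2 → 3 := by
    intro H f g hf hg _ _ A B hA hB
    obtain ⟨h, h1, h2, h3⟩ := H f g hf hg
    exact ⟨h, h1, h2, h3 A B hA hB⟩
  tfae_have 3 → 1 := fun H k R => ⟨fun h => h.e2Star, fun h => eq_of_myhill H h⟩
  tfae_have 1 → 4 := fun H f g hf hg h1 h2 =>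
    sb_of_eq (fun k R h => (H k R).mpr h) hf hg h1 h2
  tfae_have 4 → 5 := by
    intro H f g hf hg h1 h2
    obtain ⟨C, hC, hC'⟩ := banach_of_sb hf h1 h2
      (H f g hf hg (fun x => (h1 x).le) (fun x => (h2 x).le))
    refine ⟨{x | C x}, hC, ?_⟩
    ext x
    simp only [Set.mem_compl_iff, Set.mem_image]
    exact hC' x
  tfae_have 5 → 1 := by
    intro H k R
    refine ⟨fun h => h.e2Star, fun h => eq_of_banach ?_ h⟩
    intro f g hf hg h1 h2
    obtain ⟨C, hC, hC'⟩ := H f g hf hg h1 h2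
    refine ⟨fun x => x ∈ C, hC, fun x => ?_⟩
    conv_lhs => rw [hC']
    simp only [Set.mem_compl_iff, Set.mem_image]
  tfae_finish

end Pool.Agent.Results.MP_a56640_lc.Myhill
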