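import Mathlib
import Pool.Agent.ROrb.CompE2
import Pool.Agent.ROrb.Flat
import Pool.Agent.ROrb.Vec
import Pool.Agent.ROrb.Upper
import Pool.Agent.ROrb.Poly
import Pool.Agent.GAvg.AverageCase

/-!
`Delta0 = E2Star` is a statement on orbits of explicit rational maps over prime fields (with
`1 / 0 = 0`); for polynomial maps the same statement is trivially true.
-/

set_option autoImplicit false

namespace Pool.Agent.Results.MP_a56640_lc.RationalOrbits

open Pool.Agent.Grz Pool.Agent.InvCF Pool.Agent.ROrb MvPolynomial Filter Finset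
open scoped Classical

/-- The orbit of `x` under the map of `(ZMod p)^(k+1)` given by the terms `T` stays in the
hyperplane on which the last coordinate is `0`. -/
def Stays {k : ℕ} (T : Fin (k + 1) → Term (Fin (k + 1))) (p : ℕ) (x : Fin (k + 1) → ZMod p) :
    Prop :=
  ∀ t, ((stepV T p)^[t] x) (Fin.last k) = 0

/-- `R v` holds if and only if the orbit of `(v, 0, .., 0)` stays in the hyperplane, for the
least prime `p > P v`. -/
def HasOrbitForm (n : ℕ) (R : (Fin n → ℕ) → Prop) : Prop :=
  ∃ (m : ℕ) (T : Fin (n + m + 1) → Term (Fin (n + m + 1))) (P : MvPolynomial (Fin n) ℕ),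
    ∀ v, R v ↔ Stays T (nextPrime (MvPolynomial.eval v P)) (pad m _ v)

theorem e2Star_comp {m n : ℕ} {R : (Fin m → ℕ) → Prop} (hR : E2Star m R)
    {h : Fin m → (Fin n → ℕ) → ℕ} (hh : ∀ i, E2 n (h i)) : E2Star n (fun v => R (fun i => h i v)) := by
  obtain ⟨f, hf, h1⟩ := hR
  exact ⟨fun v => f (fun i => h i v), hf.comp hh, fun v => h1 _⟩

theorem form_of_e2Star {n : ℕ} {R : (Fin n → ℕ) → Prop} (hR : E2Star n R) :
    HasOrbitForm n R := by
  obtain ⟨f, hf, hfR⟩ := hR
  obtain ⟨Q, hQ⟩ := comp_e2 hf
  obtain ⟨c, hc⟩ := hQ (fun i => i) n (n + 1) (fun i => by omega) (by omega)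
  obtain ⟨m, T, hT⟩ := vec_main c n n
  refine ⟨m, T, Q + C (c.len + 3), fun v => ?_⟩
  have hp := nextPrime_prime (MvPolynomial.eval v (Q + C (c.len + 3)))
  have hlt := lt_nextPrime (MvPolynomial.eval v (Q + C (c.len + 3)))
  set p := nextPrime (MvPolynomial.eval v (Q + C (c.len + 3))) with hpdef
  rw [map_add, eval_C] at hlt
  obtain ⟨σ', hex, ho, _⟩ := hc p hp v (by omega) (regs p v) (by
    intro i
    simp only [regs]
    rw [dif_pos i.2])
  unfold Stays
  rw [hT p hp (by omega) v, flat_reject c n p hex, ho]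
  have h1 := hfR v
  have : Fact p.Prime := ⟨hp⟩
  constructor
  · intro h; rw [h1.1 h]; simp
  · intro h
    by_contra hv
    rw [h1.2 hv] at h
    simp at h

/-- The set of all prime numbers `p` and vectors `x` of natural numbers such that the orbit of `x`
modulo `p` stays in the hyperplane. -/
def Orb {k : ℕ} (T : Fin (k + 1) → Term (Fin (k + 1))) (p : ℕ) (x : Fin (k + 1) → ℕ) : Prop :=
  p.Prime ∧ Stays T p (fun i => (x i : ZMod p))

/-- The vector `(v, 0, .., 0)` of natural numbers. -/
def padN {n : ℕ} (m : ℕ) (v : Fin n → ℕ) : Fin (n + m + 1) → ℕ :=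
  fun i => if h : (i : ℕ) < n then v ⟨i, h⟩ else 0

theorem orb_padN {n m : ℕ} (T : Fin (n + m + 1) → Term (Fin (n + m + 1))) {p : ℕ}
    (hp : p.Prime) (v : Fin n → ℕ) : Orb T p (padN m v) ↔ Stays T p (pad m p v) := by
  have hs : (fun i : Fin (n + m + 1) => ((padN m v i : ℕ) : ZMod p)) = pad m p v := by
    funext i
    simp only [padN, pad]
    split_ifs <;> simp
  unfold Orb
  rw [hs]
  exact ⟨fun h => h.2, fun h => ⟨hp, h⟩⟩

/-- The vector `(f v, v, 0, .., 0)`. -/
def vec {n : ℕ} (m : ℕ) (f : (Fin n → ℕ) → ℕ) (i : Fin (n + m + 2)) (v : Fin n → ℕ) : ℕ :=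
  (Fin.cons (f v) (padN m v) : Fin (n + m + 2) → ℕ) i

theorem dfun_vec {n m : ℕ} {f : (Fin n → ℕ) → ℕ} (hf : DFun n f) (i : Fin (n + m + 2)) :
    DFun n (vec m f i) := by
  unfold vec
  refine Fin.cases ?_ (fun j => ?_) i
  · exact hf
  · simp only [Fin.cons_succ, padN]
    by_cases h : (j : ℕ) < n
    · simp only [dif_pos h]
      exact DFun.proj _
    · simp only [dif_neg h]
      exact DFun.const 0

theorem vec_spec {n m : ℕ} (T : Fin (n + m + 1) → Term (Fin (n + m + 1)))
    (f : (Fin n → ℕ) → ℕ) (v : Fin n → ℕ) (hf : (f v).Prime) :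
    (fun w : Fin (n + m + 2) → ℕ => Orb T (w 0) (fun i => w i.succ)) (fun i => vec m f i v) ↔
      Stays T (f v) (pad m _ v) :=
  orb_padN T hf v

theorem e2Star_of_form {n : ℕ} {R : (Fin n → ℕ) → Prop} (h : HasOrbitForm n R) :
    E2Star n R := by
  obtain ⟨m, T, P, hR⟩ := h
  have h1 := e2Star_comp (orbit_e2Star T) (h := vec m (fun v => nextPrime (MvPolynomial.eval v P)))
    (fun i => (dfun_vec (DFun.nextPrime (DFun.ofPoly P)) i).e2)
  refine h1.of_iff ?_
  intro v
  rw [hR v]
  exact (vec_spec T (fun v => nextPrime (MvPolynomial.eval v P)) v (nextPrime_prime _)).symm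

/-- If the orbit sets are in `Delta0` then `E2Star` is contained in `Delta0`. -/
theorem delta0_of_orb
    (H : ∀ (k : ℕ) (T : Fin (k + 1) → Term (Fin (k + 1))),
      Delta0 (k + 2) (fun w => Orb T (w 0) (fun i => w i.succ)))
    {n : ℕ} {R : (Fin n → ℕ) → Prop} (hR : E2Star n R) : Delta0 n R := by
  obtain ⟨m, T, P, hR⟩ := form_of_e2Star hR
  have h1 := (H (n + m) T).subst (h := vec m (fun v => nextPrime (MvPolynomial.eval v P)))
    (fun i => dfun_vec (DFun.nextPrime (DFun.ofPoly P)) i)
  refine h1.of_iff ?_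
  intro v
  rw [hR v]
  exact (vec_spec T (fun v => nextPrime (MvPolynomial.eval v P)) v (nextPrime_prime _)).symm

/-- **Main theorem.** Terms are built from variables, `0`, `1`, `+`, `*`, `-` and inversion, where
`1 / 0 = 0`.

(A) A predicate `R` on `ℕ^n` is in `E2Star` if and only if there are `k` terms `T` in `k > n`
variables and a polynomial `P` such that, for all `v` and the least prime `p > P v`, `R v` holds
iff the orbit of `(v, 0, .., 0)` under the map `T` of `(ZMod p)^k` stays in the hyperplane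
on which the last coordinate is `0`.

(B) Let `0 < γ ≤ 1/2`. The following are equivalent: `Delta0 = E2Star`; for all `k` and all `k`
terms `T` in `k` variables the set of all primes `p` and all `x : ℕ^k` whose orbit
modulo `p` stays in this hyperplane is in `Delta0`; for all polynomials `P` and all `k` terms `T` in
`k` variables, the set of all `x : ℕ` such that the orbit of `(x, 0, .., 0)` modulo the least prime
`p > P x` stays in the hyperplane can be predicted on `(1/2 + γ) N` of the `x < N` by a bounded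
formula with a parameter of polynomial size, for all large `N`.

(C) For polynomial maps instead of terms with inversion, and any modulus, the statement is true
for trivial reasons: whether `h` vanishes modulo `m` on the whole orbit is decided by the first
`B` points, where `B` depends only on `T` and `h`. -/
theorem result :
    (∀ (n : ℕ) (R : (Fin n → ℕ) → Prop), E2Star n R ↔ HasOrbitForm n R) ∧
    (∀ γ : ℝ, 0 < γ → γ ≤ 1 / 2 → List.TFAE [
      ∀ (k : ℕ) (R : (Fin k → ℕ) → Prop), Delta0 k R ↔ E2Star k R,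
      ∀ (k : ℕ) (T : Fin (k + 1) → Term (Fin (k + 1))),
        Delta0 (k + 2) (fun w => Orb T (w 0) (fun i => w i.succ)),
      ∀ (P : Polynomial ℕ) (m : ℕ) (T : Fin (1 + m + 1) → Term (Fin (1 + m + 1))),
        ∃ (c : ℕ) (ψ : (Fin 2 → ℕ) → Prop), Delta0 2 ψ ∧ ∀ᶠ N : ℕ in atTop,
          ∃ a : ℕ, a ≤ (N + 2) ^ c ∧ (1 / 2 + γ) * (N : ℝ) ≤
            (#{x ∈ range N | ψ ![a, x] ↔
              Stays T (nextPrime (P.eval x)) (pad m _ ![x])} : ℝ)]) ∧
    (∀ (k : ℕ) (T : Fin k → MvPolynomial (Fin k) ℤ) (h : MvPolynomial (Fin k) ℤ),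
      ∃ B : ℕ, ∀ (m : ℤ) (a : Fin k → ℤ),
        (∀ t, t ≤ B → m ∣ MvPolynomial.eval
          ((fun x i => MvPolynomial.eval x (T i))^[t] a) h) →
        ∀ t, m ∣ MvPolynomial.eval ((fun x i => MvPolynomial.eval x (T i))^[t] a) h) := by
  refine ⟨fun n R => ⟨form_of_e2Star, e2Star_of_form⟩, ?_, fun k T h => poly_loop T h⟩
  intro γ hγ hγ'
  have hpoly : ∀ P : Polynomial ℕ, DFun 1 (fun v => P.eval (v 0)) := by
    intro P
    induction P using Polynomial.induction_on' with
    | add p q hp hq => simpa using hp.add hq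
    | monomial k a =>
      have hk : ∀ k : ℕ, DFun 1 (fun v => v 0 ^ k) := by
        intro k
        induction k with
        | zero => simpa using DFun.const (n := 1) 1
        | succ k ih => simpa [pow_succ] using ih.mul (DFun.proj 0)
      simpa using (DFun.const a).mul (hk k)
  tfae_have 1 → 2 := by
    intro H k T
    exact (H (k + 2) _).mpr (orbit_e2Star T)
  tfae_have 2 → 1 := by
    intro H k R
    exact ⟨fun h => h.e2Star, fun h => delta0_of_orb H h⟩
  tfae_have 1 → 3 := by
    intro H P m T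
    have h1 := e2Star_comp (orbit_e2Star T)
      (h := vec m (fun v : Fin 1 → ℕ => nextPrime (P.eval (v 0))))
      (fun i => (dfun_vec (DFun.nextPrime (hpoly P)) i).e2)
    have h2 : Delta0 1 (fun v => Stays T (nextPrime (P.eval (v 0))) (pad m _ v)) := by
      refine (H 1 _).mpr (h1.of_iff ?_)
      intro v
      exact (vec_spec T (fun v : Fin 1 → ℕ => nextPrime (P.eval (v 0))) v
        (nextPrime_prime _)).symm
    have h3 : Delta0 1 (fun v => Stays T (nextPrime (P.eval (v 0))) (pad m _ ![v 0])) := by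
      refine h2.of_iff fun v => ?_
      have : ![v 0] = v := by funext i; fin_cases i; rfl
      rw [this]
    refine ⟨0, fun w => Stays T (nextPrime (P.eval (w 1))) (pad m _ ![w 1]),
      Delta0.comp1 (P := fun x => Stays T (nextPrime (P.eval x)) (pad m _ ![x])) h3
        (DFun.proj 1), ?_⟩
    filter_upwards with N
    refine ⟨0, Nat.zero_le _, ?_⟩
    have hN : (0 : ℝ) ≤ N := Nat.cast_nonneg N
    have h3 : (1 / 2 + γ) * (N : ℝ) ≤ N := by nlinarith
    refine h3.trans (le_of_eq ?_)
    congr 1
    symm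
    convert card_range N using 2
    ext x
    simp only [mem_filter]
    exact ⟨fun h => h.1, fun h => ⟨h, Iff.rfl⟩⟩
  tfae_have 3 → 1 := by
    intro H
    refine ((AverageCase.result γ hγ hγ').out 0 2).mpr ?_
    intro R hR
    obtain ⟨m, T, P, hRP⟩ := form_of_e2Star hR
    -- the polynomial in one variable
    have hex : ∃ P' : Polynomial ℕ, ∀ x : ℕ, P'.eval x = MvPolynomial.eval ![x] P := by
      clear hRP
      induction P using MvPolynomial.induction_on with
      | C a => exact ⟨Polynomial.C a, fun x => by simp⟩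
      | add p q hp hq =>
        obtain ⟨p', hp'⟩ := hp
        obtain ⟨q', hq'⟩ := hq
        exact ⟨p' + q', fun x => by simp [hp', hq']⟩
      | mul_X p i hp =>
        obtain ⟨p', hp'⟩ := hp
        refine ⟨p' * Polynomial.X, fun x => ?_⟩
        have : i = 0 := Subsingleton.elim _ _
        simp [hp', this]
    obtain ⟨P', hP'⟩ := hex
    obtain ⟨c, ψ, hψ, hN⟩ := H P' m T
    refine ⟨c, ψ, hψ, ?_⟩
    filter_upwards [hN] with N hN
    obtain ⟨a, ha, hcard⟩ := hN
    refine ⟨a, ha, hcard.trans (le_of_eq ?_)⟩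
    congr 2
    ext x
    simp only [mem_filter]
    have h1 : (R x ↔ Stays T (nextPrime (P'.eval x)) (pad m _ ![x])) := by
      rw [hP']
      exact hRP ![x]
    rw [h1]
  tfae_finish

end Pool.Agent.Results.MP_a56640_lc.RationalOrbits
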