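import Mathlib
import Pool.Agent.PTr.ZPos
import Pool.Agent.GAvg.AverageCase

/-!
Orbits of piecewise affine maps with boundedly many boxes: the dimensions and slopes for which they
are definable by bounded formulas, and those for which they are as hard as Grzegorczyk's class.
-/

set_option autoImplicit false

namespace Pool.Agent.Results.MP_a56640_lc.SlopeClassification

open Pool.Agent.Grz Pool.Agent.PTr MvPolynomial Filter Finset
open scoped Classical

/-- Data in `n` variables for maps of `[0, N)^r` with `k` boxes: `N`, the lower corners `a i` and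
the upper corners `b i` of the boxes, the translations `c i`, the start `x` and the target `y` are
given by polynomials. -/
structure Data (r k n : ℕ) where
  /-- the side of the cube -/
  N : MvPolynomial (Fin n) ℕ
  /-- the lower corners -/
  a : Fin k → Fin r → MvPolynomial (Fin n) ℕ
  /-- the upper corners -/
  b : Fin k → Fin r → MvPolynomial (Fin n) ℕ
  /-- the translations -/
  c : Fin k → Fin r → MvPolynomial (Fin n) ℕ
  /-- the start -/
  x : Fin r → MvPolynomial (Fin n) ℕ
  /-- the target -/
  y : Fin r → MvPolynomial (Fin n) ℕ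

variable {r k n : ℕ}

/-- The map `u ↦ s u + (sum of the c i over the boxes a i ≤ u < b i containing u)` modulo `N`,
for the value `v` of the variables. -/
noncomputable def Data.map (D : Data r k n) (s : ℤ) (v : Fin n → ℕ) : (Fin r → ℕ) → Fin r → ℕ :=
  fun u j => ((s * (u j : ℤ) + ∑ i : Fin k,
    if (∀ l, eval v (D.a i l) ≤ u l ∧ u l < eval v (D.b i l)) then (eval v (D.c i j) : ℤ) else 0) %
      (eval v D.N : ℤ)).toNat

theorem Data.map_eq (D : Data r k n) (s : ℤ) (v : Fin n → ℕ) :
    D.map s v = zmap s (eval v D.N) (fun i l => eval v (D.a i l)) (fun i l => eval v (D.b i l))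
      (fun i l => eval v (D.c i l)) := by
  funext u j
  unfold Data.map zmap
  congr

/-- The start. -/
noncomputable def Data.start (D : Data r k n) (v : Fin n → ℕ) : Fin r → ℕ :=
  fun l => eval v (D.x l)

/-- The target. -/
noncomputable def Data.target (D : Data r k n) (v : Fin n → ℕ) : Fin r → ℕ :=
  fun l => eval v (D.y l)

/-- The map leads from the start to the target in exactly `t` steps. -/
def Data.HitsAt (D : Data r k n) (s : ℤ) (t : MvPolynomial (Fin n) ℕ) (v : Fin n → ℕ) : Prop :=
  0 < eval v D.N ∧ (D.map s v)^[eval v t] (D.start v) = D.target v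

/-- The target is in the orbit of the start. -/
def Data.Hits (D : Data r k n) (s : ℤ) (v : Fin n → ℕ) : Prop :=
  0 < eval v D.N ∧ ∃ t, (D.map s v)^[t] (D.start v) = D.target v

/-- For all values of the variables the start and the target are in the cube and the map is a
permutation of the cube. -/
def Data.IsPerm (D : Data r k n) (s : ℤ) : Prop :=
  ∀ v, 0 < eval v D.N ∧ (∀ l, D.start v l < eval v D.N) ∧ (∀ l, D.target v l < eval v D.N) ∧
    Set.BijOn (D.map s v) {u | ∀ l, u l < eval v D.N} {u | ∀ l, u l < eval v D.N}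

/-- Dimension `r` and slope `s` are tame: slope `0`, or dimension `1` and slope `1` or `-1`. -/
def Tame (r : ℕ) (s : ℤ) : Prop := s = 0 ∨ (r = 1 ∧ (s = 1 ∨ s = -1))

theorem Data.hitsAt_e2Star (D : Data r k n) (s : ℤ) (t : MvPolynomial (Fin n) ℕ) :
    E2Star n (D.HitsAt s t) :=
  (zmap_dmap s (DFun.ofPoly _) (fun _ _ => DFun.ofPoly _) (fun _ _ => DFun.ofPoly _)
    (fun _ _ => DFun.ofPoly _)).iter_e2Star (DFun.ofPoly _) (fun _ => DFun.ofPoly _)
    (fun _ => DFun.ofPoly _)

theorem Data.hits_e2Star (D : Data r k n) (s : ℤ) : E2Star n (D.Hits s) :=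
  (zmap_dmap s (DFun.ofPoly _) (fun _ _ => DFun.ofPoly _) (fun _ _ => DFun.ofPoly _)
    (fun _ _ => DFun.ofPoly _)).orbit_e2Star (fun _ => DFun.ofPoly _) (fun _ => DFun.ofPoly _)

/-- **Main theorem.** First part: let `r ≥ 1` and let `s` be an integer. If `s = 0`, or `r = 1` and
`s` is `1` or `-1`, then for all data the relation that the `t`-th iterate of the map leads from the
start to the target is defined by a bounded formula. Otherwise there is a `k₀` such that for each
number `k ≥ k₀` of boxes it is equivalent that `Delta0` and `E2Star` are equal, that these relations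
are in `Delta0`, and that the relations that the target is in the orbit of the start are in `Delta0`.
Second part: for large `k` the orbit relations of permutations of squares with `k` boxes and slope
`1` are exactly the relations in `E2Star`, and the equality is equivalent to their predictability by
bounded formulas with a parameter, for fractions `1 / 2 + γ` of the values. -/
theorem result :
    -- the classification of all dimensions and slopes
    (∀ (r : ℕ) (s : ℤ), 1 ≤ r →
      (Tame r s → ∀ (k n : ℕ) (D : Data r k n) (t : MvPolynomial (Fin n) ℕ),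
        Delta0 n (D.HitsAt s t)) ∧
      (¬ Tame r s → ∃ k₀, ∀ k, k₀ ≤ k → List.TFAE [
        ∀ (n : ℕ) (R : (Fin n → ℕ) → Prop), Delta0 n R ↔ E2Star n R,
        ∀ (n : ℕ) (D : Data r k n) (t : MvPolynomial (Fin n) ℕ), Delta0 n (D.HitsAt s t),
        ∀ (n : ℕ) (D : Data r k n), Delta0 n (D.Hits s)])) ∧
    -- permutations of a square
    (∃ k₀, ∀ k, k₀ ≤ k →
      (∀ (n : ℕ) (R : (Fin n → ℕ) → Prop),
        E2Star n R ↔ ∃ D : Data 2 k n, D.IsPerm 1 ∧ ∀ v, R v ↔ D.Hits 1 v) ∧
      ∀ γ : ℝ, 0 < γ → γ ≤ 1 / 2 → List.TFAE [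
        ∀ (n : ℕ) (R : (Fin n → ℕ) → Prop), Delta0 n R ↔ E2Star n R,
        ∀ D : Data 2 k 1, D.IsPerm 1 →
          ∃ (d : ℕ) (ψ : (Fin 2 → ℕ) → Prop), Delta0 2 ψ ∧ ∀ᶠ M : ℕ in atTop,
            ∃ a : ℕ, a ≤ (M + 2) ^ d ∧ (1 / 2 + γ) * (M : ℝ) ≤
              (#{x ∈ range M | ψ ![a, x] ↔ D.Hits 1 ![x]} : ℝ)]) := by
  refine ⟨?_, ?_⟩
  · intro r s hr
    constructor
    · intro hs k n D t
      exact zmap_delta0 hs (DFun.ofPoly _) (DFun.ofPoly _) (fun _ _ => DFun.ofPoly _)
        (fun _ _ => DFun.ofPoly _) (fun _ _ => DFun.ofPoly _) (fun _ => DFun.ofPoly _)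
        (fun _ => DFun.ofPoly _)
    · intro hs
      obtain ⟨k₀, hk₀⟩ := exists_orbZ_univ (r := r) (s := s) hr (fun h => hs (Or.inl h))
        (fun h => hs (Or.inr h))
      refine ⟨k₀, fun k hk => ?_⟩
      tfae_have 1 → 2 := by
        intro H n D t
        exact (H n _).2 (D.hitsAt_e2Star s t)
      tfae_have 2 → 3 := by
        intro H n D
        have h1 := H (n + 1)
          ⟨rename Fin.succ D.N, fun i l => rename Fin.succ (D.a i l),
            fun i l => rename Fin.succ (D.b i l), fun i l => rename Fin.succ (D.c i l),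
            fun l => rename Fin.succ (D.x l), fun l => rename Fin.succ (D.y l)⟩ (X 0)
        have h3 := Delta0.bexFun (n := n) (b := fun v => enc r (fun _ => eval v D.N) + 1)
          ((DFun.enc fun _ => DFun.ofPoly D.N).add (DFun.const 1))
          (P := fun t v => 0 < eval v D.N ∧ (D.map s v)^[t] (D.start v) = D.target v) (by
            refine h1.of_iff fun w => ?_
            unfold Data.HitsAt Data.map Data.start Data.target
            simp only [eval_rename, eval_X]
            exact Iff.rfl)
        refine h3.of_iff fun v => ?_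
        constructor
        · rintro ⟨hv, t, ht⟩
          obtain ⟨t', ht', he⟩ := (zmap_dmap s (N := fun v => eval v D.N)
            (a := fun i l v => eval v (D.a i l)) (b := fun i l v => eval v (D.b i l))
            (c := fun i l v => eval v (D.c i l)) (DFun.ofPoly _) (fun _ _ => DFun.ofPoly _)
            (fun _ _ => DFun.ofPoly _) (fun _ _ => DFun.ofPoly _)).iter_bdd (v := v) hv
            (D.start v) t
          exact ⟨t', ht', hv, he.symm.trans ht⟩
        · rintro ⟨t, -, hv, ht⟩
          exact ⟨hv, t, ht⟩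
      tfae_have 3 → 1 := by
        intro H n R
        refine ⟨fun h => h.e2Star, fun h => hk₀ k hk (orbZ_of_poly ?_) n R h⟩
        intro n N a b c x y
        exact H n ⟨N, a, b, c, x, y⟩
      tfae_finish
  · obtain ⟨k₀, hk₀⟩ := form2_univ
    refine ⟨k₀, fun k hk => ?_⟩
    have hB : ∀ (n : ℕ) (R : (Fin n → ℕ) → Prop),
        E2Star n R ↔ ∃ D : Data 2 k n, D.IsPerm 1 ∧ ∀ v, R v ↔ D.Hits 1 v := by
      intro n R
      constructor
      · intro hR
        obtain ⟨N, a, b, c, x, y, h⟩ := hk₀ k hk hR
        have hmap : ∀ v, (⟨N, a, b, c, x, y⟩ : Data 2 k n).map 1 v =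
            tmap 1 (eval v N) (fun i l => eval v (a i l)) (fun i l => eval v (b i l))
              (fun i l => eval v (c i l)) := by
          intro v
          rw [Data.map_eq, ← zmap_natCast, Nat.cast_one]
        refine ⟨⟨N, a, b, c, x, y⟩, fun v => ?_, fun v => ?_⟩
        · refine ⟨(h v).1, (h v).2.1, (h v).2.2.1, ?_⟩
          rw [hmap]
          exact (h v).2.2.2.1
        · rw [(h v).2.2.2.2]
          unfold Data.Hits
          rw [hmap]
          exact ⟨fun h' => ⟨(h v).1, h'⟩, fun h' => h'.2⟩
      · rintro ⟨D, -, hD⟩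
        exact (D.hits_e2Star 1).of_iff hD
    refine ⟨hB, ?_⟩
    intro γ hγ hγ'
    tfae_have 1 → 2 := by
      intro H D hD
      have h1 : Delta0 1 (D.Hits 1) := (H 1 _).2 (D.hits_e2Star 1)
      refine ⟨0, fun w => D.Hits 1 ![w 1], ?_, ?_⟩
      · have h2 : Delta0 1 (fun v => D.Hits 1 ![v 0]) := by
          refine h1.of_iff fun v => ?_
          have : ![v 0] = v := by funext i; fin_cases i; rfl
          rw [this]
        exact Delta0.comp1 (P := fun x => D.Hits 1 ![x]) h2 (DFun.proj 1)
      · filter_upwards with M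
        refine ⟨0, Nat.zero_le _, ?_⟩
        have hN : (0 : ℝ) ≤ M := Nat.cast_nonneg M
        have h3 : (1 / 2 + γ) * (M : ℝ) ≤ M := by nlinarith
        refine h3.trans (le_of_eq ?_)
        congr 1
        symm
        convert card_range M using 2
        ext x
        simp only [mem_filter]
        exact ⟨fun h => h.1, fun h => ⟨h, Iff.rfl⟩⟩
    tfae_have 2 → 1 := by
      intro H
      refine ((AverageCase.result γ hγ hγ').out 0 2).mpr ?_
      intro R hR
      obtain ⟨D, hp, hD⟩ := (hB 1 _).1 hR
      obtain ⟨d, ψ, hψ, hN⟩ := H D hp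
      refine ⟨d, ψ, hψ, ?_⟩
      filter_upwards [hN] with M hM
      obtain ⟨a, ha, hcard⟩ := hM
      refine ⟨a, ha, hcard.trans (le_of_eq ?_)⟩
      congr 2
      ext x
      simp only [mem_filter]
      have h1 : R x ↔ D.Hits 1 ![x] := hD ![x]
      rw [h1]
    tfae_finish

end Pool.Agent.Results.MP_a56640_lc.SlopeClassification
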